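import Pool.Agent.Q296.MLS.Gen

/-!
# The birth-and-death chain
-/

namespace Q296.MLS

open Finset Matrix

/-- Indicator. -/
def dl {α : Type*} [DecidableEq α] (x z : α) : ℝ := if x = z then 1 else 0

/-- Up rates. -/
noncomputable def ar (k : ℕ) (i : ℕ) : ℝ := 2 ^ i / 2 ^ k

/-- Minus the generator. -/
noncomputable def LL (k : ℕ) : Matrix (Fin (k + 1)) (Fin (k + 1)) ℝ := fun x y =>
  ∑ i : Fin k, (ar k i * dl x i.castSucc * (dl y i.castSucc - dl y i.succ) +
    ar k i / 16 * dl x i.succ * (dl y i.succ - dl y i.castSucc))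

/-- The transition matrix. -/
noncomputable def PP (k : ℕ) : Matrix (Fin (k + 1)) (Fin (k + 1)) ℝ := 1 - LL k

/-- Normalising constant. -/
noncomputable def ZZ (k : ℕ) : ℝ := ∑ x : Fin (k + 1), (16 : ℝ) ^ (x : ℕ)

/-- The stationary distribution. -/
noncomputable def pp (k : ℕ) (x : Fin (k + 1)) : ℝ := 16 ^ (x : ℕ) / ZZ k

theorem sum_dl {n : ℕ} (z : Fin n) (u : Fin n → ℝ) : ∑ y, dl y z * u y = u z := by
  simp [dl]

theorem LL_mulVec (k : ℕ) (u : Fin (k + 1) → ℝ) (x : Fin (k + 1)) :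
    (LL k).mulVec u x = ∑ i : Fin k, (ar k i * dl x i.castSucc * (u i.castSucc - u i.succ) +
      ar k i / 16 * dl x i.succ * (u i.succ - u i.castSucc)) := by
  simp only [Matrix.mulVec, dotProduct, LL, Finset.sum_mul]
  rw [Finset.sum_comm]
  refine Finset.sum_congr rfl fun i _ => ?_
  have h1 := sum_dl i.castSucc u
  have h2 := sum_dl i.succ u
  rw [← h1, ← h2]
  simp only [← Finset.sum_sub_distrib, Finset.mul_sum, ← Finset.sum_add_distrib]
  refine Finset.sum_congr rfl fun y _ => ?_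
  ring

theorem one_sub_PP (k : ℕ) : 1 - PP k = LL k := by
  simp [PP]

theorem ZZ_pos (k : ℕ) : 0 < ZZ k := Finset.sum_pos (fun _ _ => by positivity) ⟨0, by simp⟩

theorem pp_pos (k : ℕ) (x : Fin (k + 1)) : 0 < pp k x := by
  have := ZZ_pos k
  unfold pp; positivity

theorem pp_sum (k : ℕ) : ∑ x, pp k x = 1 := by
  unfold pp
  rw [← Finset.sum_div]
  exact div_self (ZZ_pos k).ne'

theorem ar_pos (k i : ℕ) : 0 < ar k i := by unfold ar; positivity

theorem ar_le {k i : ℕ} (h : i < k) : ar k i ≤ 1 / 2 := by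
  unfold ar
  rw [div_le_div_iff₀ (by positivity) (by norm_num)]
  have : (2 : ℝ) ^ (i + 1) ≤ 2 ^ k := pow_le_pow_right₀ (by norm_num) h
  rw [pow_succ] at this
  linarith

theorem pp_mul_dl (k : ℕ) (x z : Fin (k + 1)) : pp k x * dl x z = pp k z * dl x z := by
  unfold dl
  split_ifs with h
  · rw [h]
  · simp

theorem pp_succ (k : ℕ) (i : Fin k) : pp k i.succ / 16 = pp k i.castSucc := by
  unfold pp
  simp only [Fin.val_succ, Fin.val_castSucc, pow_succ]
  ring

theorem pp_mul_LL (k : ℕ) (x y : Fin (k + 1)) : pp k x * LL k x y =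
    ∑ i : Fin k, pp k i.castSucc * ar k i * ((dl x i.castSucc - dl x i.succ) *
      (dl y i.castSucc - dl y i.succ)) := by
  unfold LL
  rw [Finset.mul_sum]
  refine Finset.sum_congr rfl fun i _ => ?_
  have h1 := pp_mul_dl k x i.castSucc
  have h2 := pp_mul_dl k x i.succ
  have h3 := pp_succ k i
  have : pp k x * (ar k i * dl x i.castSucc * (dl y i.castSucc - dl y i.succ) +
    ar k i / 16 * dl x i.succ * (dl y i.succ - dl y i.castSucc)) =
    ar k i * (pp k x * dl x i.castSucc) * (dl y i.castSucc - dl y i.succ) +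
    ar k i / 16 * (pp k x * dl x i.succ) * (dl y i.succ - dl y i.castSucc) := by ring
  rw [this, h1, h2, ← h3]
  ring

theorem PP_rev (k : ℕ) (x y : Fin (k + 1)) : pp k x * PP k x y = pp k y * PP k y x := by
  have h : pp k x * LL k x y = pp k y * LL k y x := by
    rw [pp_mul_LL, pp_mul_LL]
    refine Finset.sum_congr rfl fun i _ => ?_
    ring
  have h2 : pp k x * (1 : Matrix (Fin (k + 1)) (Fin (k + 1)) ℝ) x y =
      pp k y * (1 : Matrix (Fin (k + 1)) (Fin (k + 1)) ℝ) y x := by
    by_cases hxy : x = y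
    · subst hxy; rfl
    · rw [Matrix.one_apply_ne hxy, Matrix.one_apply_ne (Ne.symm hxy)]; simp
  simp only [PP, Matrix.sub_apply, mul_sub, h, h2]

theorem PP_row (k : ℕ) (x : Fin (k + 1)) : ∑ y, PP k x y = 1 := by
  have h := LL_mulVec k (fun _ => 1) x
  simp only [Matrix.mulVec, dotProduct, mul_one, sub_self, mul_zero, add_zero,
    Finset.sum_const_zero] at h
  simp only [PP, Matrix.sub_apply, Finset.sum_sub_distrib, h, sub_zero]
  simp [Matrix.one_apply]

theorem dl_nonneg {α : Type*} [DecidableEq α] (x z : α) : 0 ≤ dl x z := by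
  unfold dl; split_ifs <;> norm_num

theorem PP_nonneg (k : ℕ) (x y : Fin (k + 1)) : 0 ≤ PP k x y := by
  by_cases hxy : x = y
  · subst hxy
    simp only [PP, Matrix.sub_apply, Matrix.one_apply_eq, LL]
    have h1 : ∑ i : Fin k, (ar k i * dl x i.castSucc * (dl x i.castSucc - dl x i.succ) +
        ar k i / 16 * dl x i.succ * (dl x i.succ - dl x i.castSucc)) ≤
        ∑ i : Fin k, (1 / 2 * dl x i.castSucc + 1 / 32 * dl x i.succ) := by
      refine Finset.sum_le_sum fun i _ => ?_
      have ha := ar_le i.2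
      have ha0 := ar_pos k i
      unfold dl
      split_ifs <;> simp <;> linarith
    have h2 : ∑ i : Fin k, dl x i.castSucc ≤ 1 := by
      by_cases hx : ∃ i : Fin k, x = i.castSucc
      · obtain ⟨i, rfl⟩ := hx
        simp [dl]
      · have : ∀ i : Fin k, dl x i.castSucc = 0 := fun i => by
          unfold dl; rw [if_neg]; exact fun h => hx ⟨i, h⟩
        simp [this]
    have h3 : ∑ i : Fin k, dl x i.succ ≤ 1 := by
      by_cases hx : ∃ i : Fin k, x = i.succ
      · obtain ⟨i, rfl⟩ := hx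
        simp [dl]
      · have : ∀ i : Fin k, dl x i.succ = 0 := fun i => by
          unfold dl; rw [if_neg]; exact fun h => hx ⟨i, h⟩
        simp [this]
    have h4 : ∑ i : Fin k, (1 / 2 * dl x i.castSucc + 1 / 32 * dl x i.succ) =
        1 / 2 * (∑ i : Fin k, dl x i.castSucc) + 1 / 32 * ∑ i : Fin k, dl x i.succ := by
      rw [Finset.sum_add_distrib, Finset.mul_sum, Finset.mul_sum]
    linarith
  · simp only [PP, Matrix.sub_apply, Matrix.one_apply_ne hxy, LL]
    rw [zero_sub, neg_nonneg]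
    refine Finset.sum_nonpos fun i _ => ?_
    have ha0 := ar_pos k i
    have e1 : dl x i.castSucc * dl y i.castSucc = 0 := by
      unfold dl; split_ifs with h1 h2 <;> simp
      exact hxy (h1.trans h2.symm)
    have e2 : dl x i.succ * dl y i.succ = 0 := by
      unfold dl; split_ifs with h1 h2 <;> simp
      exact hxy (h1.trans h2.symm)
    have : ar k i * dl x i.castSucc * (dl y i.castSucc - dl y i.succ) +
      ar k i / 16 * dl x i.succ * (dl y i.succ - dl y i.castSucc) =
      ar k i * (dl x i.castSucc * dl y i.castSucc) + ar k i / 16 * (dl x i.succ * dl y i.succ)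
      - (ar k i * (dl x i.castSucc * dl y i.succ) + ar k i / 16 * (dl x i.succ * dl y i.castSucc))
       := by ring
    rw [this, e1, e2]
    have h3 := mul_nonneg ha0.le (mul_nonneg (dl_nonneg x i.castSucc) (dl_nonneg y i.succ))
    have h4 := mul_nonneg (div_nonneg ha0.le (by norm_num : (0 : ℝ) ≤ 16))
      (mul_nonneg (dl_nonneg x i.succ) (dl_nonneg y i.castSucc))
    linarith

theorem dir_eq (k : ℕ) (u v : Fin (k + 1) → ℝ) :
    dir (PP k) (pp k) u v = ∑ i : Fin k, pp k i.castSucc * ar k i *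
      ((u i.castSucc - u i.succ) * (v i.castSucc - v i.succ)) := by
  unfold dir
  rw [one_sub_PP]
  simp only [LL_mulVec, Finset.sum_mul, Finset.mul_sum]
  rw [Finset.sum_comm]
  refine Finset.sum_congr rfl fun i _ => ?_
  have e : ∀ x, pp k x * ((ar k i * dl x i.castSucc * (u i.castSucc - u i.succ) +
      ar k i / 16 * dl x i.succ * (u i.succ - u i.castSucc)) * v x) =
      dl x i.castSucc * (pp k x * ar k i * (u i.castSucc - u i.succ) * v x) +
      dl x i.succ * (pp k x / 16 * ar k i * (u i.succ - u i.castSucc) * v x) := fun x => by ring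
  simp only [e]
  rw [Finset.sum_add_distrib, sum_dl, sum_dl, pp_succ]
  ring

theorem LL_castSucc_succ (k : ℕ) (i : Fin k) : PP k i.castSucc i.succ = ar k i := by
  have hne : i.castSucc ≠ i.succ := (Fin.castSucc_lt_succ).ne
  simp only [PP, Matrix.sub_apply, Matrix.one_apply_ne hne, LL]
  rw [Finset.sum_eq_single i]
  · simp [dl, hne, hne.symm]
  · intro j _ hj
    have h1 : dl i.castSucc j.castSucc = 0 := by
      unfold dl; rw [if_neg]; intro h; exact hj (Fin.castSucc_injective k h.symm)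
    have h2 : dl i.succ j.succ = 0 := by
      unfold dl; rw [if_neg]; intro h; exact hj (Fin.succ_injective k h.symm)
    have h3 : dl i.castSucc j.succ * dl i.succ j.castSucc = 0 := by
      unfold dl
      split_ifs with h4 h5 <;> simp
      have := congrArg Fin.val h4
      have := congrArg Fin.val h5
      simp at *
      omega
    rw [h1, h2]
    linear_combination (-(ar k j / 16)) * h3
  · simp

theorem PP_step_up (k : ℕ) (i : Fin k) : 0 < PP k i.castSucc i.succ := by
  rw [LL_castSucc_succ]; exact ar_pos k i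

theorem PP_step_down (k : ℕ) (i : Fin k) : 0 < PP k i.succ i.castSucc := by
  have h := PP_rev k i.castSucc i.succ
  have h1 := mul_pos (pp_pos k i.castSucc) (PP_step_up k i)
  rw [h] at h1
  exact (mul_pos_iff_of_pos_left (pp_pos k i.succ)).1 h1

theorem pow_nonneg_mat {n : ℕ} {M : Matrix (Fin n) (Fin n) ℝ} (h : ∀ x y, 0 ≤ M x y) (m : ℕ)
    (x y : Fin n) : 0 ≤ (M ^ m) x y := by
  induction m generalizing x y with
  | zero =>
    rw [pow_zero, Matrix.one_apply]; split_ifs <;> norm_num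
  | succ m ih =>
    rw [pow_succ, Matrix.mul_apply]
    exact Finset.sum_nonneg fun z _ => mul_nonneg (ih x z) (h z y)

theorem reach_trans {n : ℕ} {M : Matrix (Fin n) (Fin n) ℝ} (h : ∀ x y, 0 ≤ M x y)
    {x y z : Fin n} (h1 : ∃ m : ℕ, 0 < (M ^ m) x y) (h2 : ∃ m : ℕ, 0 < (M ^ m) y z) :
    ∃ m : ℕ, 0 < (M ^ m) x z := by
  obtain ⟨m1, h1⟩ := h1
  obtain ⟨m2, h2⟩ := h2
  refine ⟨m1 + m2, ?_⟩
  rw [pow_add, Matrix.mul_apply]
  exact Finset.sum_pos' (fun w _ => mul_nonneg (pow_nonneg_mat h m1 x w) (pow_nonneg_mat h m2 w z))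
    ⟨y, Finset.mem_univ _, mul_pos h1 h2⟩

theorem PP_irred (k : ℕ) (x y : Fin (k + 1)) : ∃ n : ℕ, 0 < (PP k ^ n) x y := by
  have h0 : ∀ x : Fin (k + 1), (∃ n : ℕ, 0 < (PP k ^ n) 0 x) ∧ (∃ n : ℕ, 0 < (PP k ^ n) x 0) := by
    intro x
    induction x using Fin.induction with
    | zero => exact ⟨⟨0, by simp⟩, ⟨0, by simp⟩⟩
    | succ i ih =>
      exact ⟨reach_trans (PP_nonneg k) ih.1 ⟨1, by rw [pow_one]; exact PP_step_up k i⟩,
        reach_trans (PP_nonneg k) ⟨1, by rw [pow_one]; exact PP_step_down k i⟩ ih.2⟩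
  exact reach_trans (PP_nonneg k) (h0 x).2 (h0 y).1

theorem isRevChain (k : ℕ) : IsRevChain (PP k) (pp k) where
  nonneg := PP_nonneg k
  row_sum := PP_row k
  irred := PP_irred k
  pi_pos := pp_pos k
  pi_sum := pp_sum k
  rev := PP_rev k

end Q296.MLS
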