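import Pool.Agent.Q296.MLS.Chain

/-!
# Two-sided bounds on the modified log-Sobolev constant of the chain
-/

namespace Q296.MLS

open Finset Matrix

theorem ZZ_eq (k : ℕ) : ZZ k = (16 ^ (k + 1) - 1) / 15 := by
  unfold ZZ
  rw [Fin.sum_univ_eq_sum_range (fun i => (16 : ℝ) ^ i) (k + 1), geom_sum_eq (by norm_num)]
  norm_num

theorem ZZ_ge (k : ℕ) : (16 : ℝ) ^ k ≤ ZZ k := by
  rw [ZZ_eq, pow_succ]
  have : (1 : ℝ) ≤ 16 ^ k := one_le_pow₀ (by norm_num)
  linarith

theorem ZZ_le (k : ℕ) : ZZ k ≤ 16 / 15 * 16 ^ k := by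
  rw [ZZ_eq, pow_succ]
  linarith

theorem pp_ge (k : ℕ) (x : Fin (k + 1)) : 1 / ZZ k ≤ pp k x := by
  unfold pp
  have := ZZ_pos k
  gcongr
  exact one_le_pow₀ (by norm_num)

theorem log_sub_ge {a b : ℝ} (ha : 0 < a) (hb : 0 < b) :
    (a - b) ^ 2 / max a b ≤ (a - b) * (Real.log a - Real.log b) := by
  have key : ∀ {a b : ℝ}, 0 < a → 0 < b → b ≤ a →
      (a - b) ^ 2 / max a b ≤ (a - b) * (Real.log a - Real.log b) := by
    intro a b ha hb hab
    rw [max_eq_left hab]
    have h1 : Real.log (b / a) ≤ b / a - 1 := Real.log_le_sub_one_of_pos (by positivity)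
    rw [Real.log_div hb.ne' ha.ne'] at h1
    have h2 : (a - b) / a ≤ Real.log a - Real.log b := by
      have : (a - b) / a = 1 - b / a := by field_simp
      linarith
    calc (a - b) ^ 2 / a = (a - b) * ((a - b) / a) := by ring
      _ ≤ _ := mul_le_mul_of_nonneg_left h2 (by linarith)
  rcases le_total b a with h | h
  · exact key ha hb h
  · have := key hb ha h
    rw [max_comm]
    calc (a - b) ^ 2 / max b a = (b - a) ^ 2 / max b a := by ring
      _ ≤ (b - a) * (Real.log b - Real.log a) := this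
      _ = _ := by ring

theorem telescope (k : ℕ) (u : Fin (k + 1) → ℝ) {D : ℝ} (hD : ∀ i : Fin k,
    |u i.castSucc - u i.succ| ≤ D) (x : Fin (k + 1)) : |u x - u 0| ≤ (x : ℕ) * D := by
  induction x using Fin.induction with
  | zero => simp
  | succ i ih =>
    have h1 := abs_sub_le (u i.succ) (u i.castSucc) (u 0)
    have h2 := hD i
    rw [abs_sub_comm] at h2
    simp only [Fin.val_castSucc] at ih
    simp only [Fin.val_succ, Nat.cast_add, Nat.cast_one]
    linarith

section ent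

variable {Ω : Type*} [Fintype Ω]

theorem ent_eq {π F : Ω → ℝ} (hπ : ∀ x, 0 < π x) (hs : ∑ x, π x = 1) (hF : ∀ x, 0 < F x) :
    ent π F = (∑ x, π x * F x) * ∑ x, π x * (F x / (∑ x, π x * F x) *
      Real.log (F x / (∑ x, π x * F x))) := by
  have hne : (Finset.univ : Finset Ω).Nonempty := by
    by_contra h
    rw [Finset.not_nonempty_iff_eq_empty] at h
    rw [h] at hs
    simp at hs
  have hm : 0 < ∑ x, π x * F x := Finset.sum_pos (fun x _ => mul_pos (hπ x) (hF x)) hne
  set m := ∑ x, π x * F x with hmdef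
  unfold ent
  rw [← hmdef, Finset.mul_sum]
  have e : ∀ x, m * (π x * (F x / m * Real.log (F x / m))) =
      π x * (F x * Real.log (F x)) - π x * F x * Real.log m := by
    intro x
    rw [Real.log_div (hF x).ne' hm.ne']
    field_simp
  simp only [e]
  rw [Finset.sum_sub_distrib, ← Finset.sum_mul]

theorem ent_le {π F : Ω → ℝ} (hπ : ∀ x, 0 < π x) (hs : ∑ x, π x = 1) (hF : ∀ x, 0 < F x) :
    ent π F ≤ (∑ x, π x * (F x - ∑ y, π y * F y) ^ 2) / ∑ y, π y * F y := by
  have hne : (Finset.univ : Finset Ω).Nonempty := by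
    by_contra h
    rw [Finset.not_nonempty_iff_eq_empty] at h
    rw [h] at hs
    simp at hs
  have hm : 0 < ∑ x, π x * F x := Finset.sum_pos (fun x _ => mul_pos (hπ x) (hF x)) hne
  rw [ent_eq hπ hs hF]
  set m := ∑ x, π x * F x with hmdef
  have h1 : ∀ x, π x * (F x / m * Real.log (F x / m)) ≤ π x * (F x / m * (F x / m - 1)) := by
    intro x
    have hg : 0 < F x / m := div_pos (hF x) hm
    exact mul_le_mul_of_nonneg_left (mul_le_mul_of_nonneg_left
      (Real.log_le_sub_one_of_pos hg) hg.le) (hπ x).le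
  have h2 : ∑ x, π x * (F x / m * (F x / m - 1)) = (∑ x, π x * (F x - m) ^ 2) / m ^ 2 := by
    have e : ∀ x, π x * (F x / m * (F x / m - 1)) =
        π x * (F x - m) ^ 2 / m ^ 2 + (π x * F x / m - π x) := by
      intro x
      field_simp
      ring
    simp only [e]
    rw [Finset.sum_add_distrib, Finset.sum_sub_distrib, ← Finset.sum_div, ← Finset.sum_div,
      ← hmdef, hs, div_self hm.ne']
    ring
  calc m * ∑ x, π x * (F x / m * Real.log (F x / m))
      ≤ m * ∑ x, π x * (F x / m * (F x / m - 1)) :=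
        mul_le_mul_of_nonneg_left (Finset.sum_le_sum fun x _ => h1 x) hm.le
    _ = _ := by rw [h2]; field_simp

theorem ent_pos {π F : Ω → ℝ} (hπ : ∀ x, 0 < π x) (hs : ∑ x, π x = 1) (hF : ∀ x, 0 < F x)
    (hc : ¬ ∃ c, ∀ x, F x = c) : 0 < ent π F := by
  have hne : (Finset.univ : Finset Ω).Nonempty := by
    by_contra h
    rw [Finset.not_nonempty_iff_eq_empty] at h
    rw [h] at hs
    simp at hs
  have hm : 0 < ∑ x, π x * F x := Finset.sum_pos (fun x _ => mul_pos (hπ x) (hF x)) hne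
  rw [ent_eq hπ hs hF]
  set m := ∑ x, π x * F x with hmdef
  refine mul_pos hm ?_
  have hsum : ∑ x, π x * (F x / m - 1) = 0 := by
    have e : ∀ x, π x * (F x / m - 1) = π x * F x / m - π x := fun x => by ring
    simp only [e]
    rw [Finset.sum_sub_distrib, ← Finset.sum_div, ← hmdef, hs, div_self hm.ne', sub_self]
  have key : ∀ g : ℝ, 0 < g → g - 1 ≤ g * Real.log g ∧ (g ≠ 1 → g - 1 < g * Real.log g) := by
    intro g hg
    have hinv : 0 < g⁻¹ := inv_pos.2 hg
    constructor
    · have := Real.log_le_sub_one_of_pos hinv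
      rw [Real.log_inv] at this
      have h2 := mul_le_mul_of_nonneg_left this hg.le
      have h3 : g * (g⁻¹ - 1) = 1 - g := by field_simp
      rw [h3] at h2
      linarith
    · intro h1
      have := Real.log_lt_sub_one_of_pos hinv (fun h => h1 (inv_eq_one.1 h))
      rw [Real.log_inv] at this
      have h2 := mul_lt_mul_of_pos_left this hg
      have h3 : g * (g⁻¹ - 1) = 1 - g := by field_simp
      rw [h3] at h2
      linarith
  rw [← hsum]
  obtain ⟨x, hx⟩ : ∃ x, F x ≠ m := by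
    by_contra h
    push Not at h
    exact hc ⟨m, h⟩
  refine Finset.sum_lt_sum (fun x _ => ?_) ⟨x, Finset.mem_univ x, ?_⟩
  · exact mul_le_mul_of_nonneg_left (key _ (div_pos (hF x) hm)).1 (hπ x).le
  · refine mul_lt_mul_of_pos_left ((key _ (div_pos (hF x) hm)).2 ?_) (hπ x)
    intro h
    rw [div_eq_one_iff_eq hm.ne'] at h
    exact hx h

end ent

/-- A positive lower bound for the ratios defining `cMLS`. -/
theorem ratio_ge (k : ℕ) (hk : 1 ≤ k) (f : Fin (k + 1) → ℝ) (hc : ¬ ∃ c, ∀ x, f x = c) :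
    1 / (4 * k ^ 2 * 2 ^ k * ZZ k ^ 2) ≤ dir (PP k) (pp k) (fun x => Real.exp (f x)) f /
      ent (pp k) (fun x => Real.exp (f x)) := by
  set F : Fin (k + 1) → ℝ := fun x => Real.exp (f x) with hF
  have hFpos : ∀ x, 0 < F x := fun x => Real.exp_pos _
  have hFc : ¬ ∃ c, ∀ x, F x = c := by
    rintro ⟨c, h⟩
    refine hc ⟨Real.log c, fun x => ?_⟩
    rw [← h x, hF]
    simp
  have hent := ent_pos (pp_pos k) (pp_sum k) hFpos hFc
  have hle := ent_le (pp_pos k) (pp_sum k) hFpos
  have hZ := ZZ_pos k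
  have hm : 0 < ∑ x, pp k x * F x :=
    Finset.sum_pos (fun x _ => mul_pos (pp_pos k x) (hFpos x)) ⟨0, by simp⟩
  set m := ∑ x, pp k x * F x with hmdef
  rw [le_div_iff₀ hent]
  -- lower bound of the Dirichlet form
  set S := ∑ i : Fin k, (F i.castSucc - F i.succ) ^ 2 with hS
  have hS0 : 0 ≤ S := Finset.sum_nonneg fun _ _ => sq_nonneg _
  have hFle : ∀ x, F x ≤ m * ZZ k := by
    intro x
    have h1 : pp k x * F x ≤ m :=
      Finset.single_le_sum (f := fun x => pp k x * F x)
        (fun y _ => (mul_pos (pp_pos k y) (hFpos y)).le) (Finset.mem_univ x)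
    have h2 : 1 / ZZ k * F x ≤ m := le_trans (mul_le_mul_of_nonneg_right (pp_ge k x)
      (hFpos x).le) h1
    rw [one_div, inv_mul_le_iff₀ hZ] at h2
    linarith
  have hdir : 1 / (m * ZZ k ^ 2 * 2 ^ k) * S ≤ dir (PP k) (pp k) F f := by
    rw [dir_eq, hS, Finset.mul_sum]
    refine Finset.sum_le_sum fun i _ => ?_
    have hq : 1 / (ZZ k * 2 ^ k) ≤ pp k i.castSucc * ar k i := by
      have h1 := pp_ge k i.castSucc
      have h2 : 1 / 2 ^ k ≤ ar k i := by
        unfold ar
        gcongr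
        exact one_le_pow₀ (by norm_num)
      calc 1 / (ZZ k * 2 ^ k) = 1 / ZZ k * (1 / 2 ^ k) := by field_simp
        _ ≤ _ := mul_le_mul h1 h2 (by positivity) (pp_pos k _).le
    have hlog := log_sub_ge (hFpos i.castSucc) (hFpos i.succ)
    have e1 : Real.log (F i.castSucc) - Real.log (F i.succ) = f i.castSucc - f i.succ := by
      simp [hF]
    rw [e1] at hlog
    have hmax : max (F i.castSucc) (F i.succ) ≤ m * ZZ k := max_le (hFle _) (hFle _)
    have hmaxpos : 0 < max (F i.castSucc) (F i.succ) := lt_max_of_lt_left (hFpos _)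
    have h3 : (F i.castSucc - F i.succ) ^ 2 / (m * ZZ k) ≤
        (F i.castSucc - F i.succ) * (f i.castSucc - f i.succ) :=
      le_trans (div_le_div_of_nonneg_left (sq_nonneg _) hmaxpos hmax) hlog
    calc 1 / (m * ZZ k ^ 2 * 2 ^ k) * (F i.castSucc - F i.succ) ^ 2
        = 1 / (ZZ k * 2 ^ k) * ((F i.castSucc - F i.succ) ^ 2 / (m * ZZ k)) := by
          field_simp
      _ ≤ pp k i.castSucc * ar k i * ((F i.castSucc - F i.succ) * (f i.castSucc - f i.succ)) := by
          refine mul_le_mul hq h3 (by positivity) (mul_pos (pp_pos k _) (ar_pos k _)).le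
  -- upper bound of the entropy
  have hDD : ∀ i : Fin k, |F i.castSucc - F i.succ| ≤ Real.sqrt S := by
    intro i
    refine Real.abs_le_sqrt ?_
    exact Finset.single_le_sum (f := fun i : Fin k => (F i.castSucc - F i.succ) ^ 2)
        (fun y _ => sq_nonneg _) (Finset.mem_univ i)
  have htel : ∀ x, |F x - F 0| ≤ k * Real.sqrt S := by
    intro x
    refine le_trans (telescope k F hDD x) ?_
    have : ((x : ℕ) : ℝ) ≤ k := by
      have := x.2
      exact_mod_cast (by omega : (x : ℕ) ≤ k)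
    exact mul_le_mul_of_nonneg_right this (Real.sqrt_nonneg _)
  have hm0 : |m - F 0| ≤ k * Real.sqrt S := by
    have e : m - F 0 = ∑ x, pp k x * (F x - F 0) := by
      simp only [mul_sub, Finset.sum_sub_distrib]
      rw [← Finset.sum_mul, pp_sum, one_mul]
    rw [e]
    calc |∑ x, pp k x * (F x - F 0)| ≤ ∑ x, |pp k x * (F x - F 0)| :=
          Finset.abs_sum_le_sum_abs _ _
      _ ≤ ∑ x, pp k x * (k * Real.sqrt S) := by
          refine Finset.sum_le_sum fun x _ => ?_
          rw [abs_mul, abs_of_pos (pp_pos k x)]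
          exact mul_le_mul_of_nonneg_left (htel x) (pp_pos k x).le
      _ = _ := by rw [← Finset.sum_mul, pp_sum, one_mul]
  have hFm : ∀ x, (F x - m) ^ 2 ≤ 4 * k ^ 2 * S := by
    intro x
    have h1 : |F x - m| ≤ 2 * (k * Real.sqrt S) := by
      have h2 := abs_sub_le (F x) (F 0) m
      have h3 := htel x
      rw [abs_sub_comm] at hm0
      linarith
    have h2 := pow_le_pow_left₀ (abs_nonneg _) h1 2
    rw [sq_abs] at h2
    calc (F x - m) ^ 2 ≤ (2 * (k * Real.sqrt S)) ^ 2 := h2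
      _ = 4 * k ^ 2 * (Real.sqrt S) ^ 2 := by ring
      _ = _ := by rw [Real.sq_sqrt hS0]
  have hvar : ∑ x, pp k x * (F x - m) ^ 2 ≤ 4 * k ^ 2 * S := by
    calc ∑ x, pp k x * (F x - m) ^ 2 ≤ ∑ x, pp k x * (4 * k ^ 2 * S) :=
          Finset.sum_le_sum fun x _ => mul_le_mul_of_nonneg_left (hFm x) (pp_pos k x).le
      _ = _ := by rw [← Finset.sum_mul, pp_sum, one_mul]
  have hk0 : (0 : ℝ) < k := by exact_mod_cast hk
  calc 1 / (4 * k ^ 2 * 2 ^ k * ZZ k ^ 2) * ent (pp k) F
      ≤ 1 / (4 * k ^ 2 * 2 ^ k * ZZ k ^ 2) * (4 * k ^ 2 * S / m) := by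
        refine mul_le_mul_of_nonneg_left (le_trans hle ?_) (by positivity)
        gcongr
    _ = 1 / (m * ZZ k ^ 2 * 2 ^ k) * S := by field_simp
    _ ≤ _ := hdir

end Q296.MLS
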