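import Mathlib

/-!
# Modified log-Sobolev constant, entropy mixing time, entropy hitting-time parameter

Definitions for finite irreducible reversible Markov chains run in continuous time at rate one.
-/

namespace Q296.MLS

open scoped ENNReal NNReal

variable {Ω : Type*} [Fintype Ω] [DecidableEq Ω]

/-- `P` is an irreducible transition matrix on the finite set `Ω`, reversible with respect to the
(positive) probability vector `π`. -/
structure IsRevChain (P : Matrix Ω Ω ℝ) (π : Ω → ℝ) : Prop where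
  nonneg : ∀ x y, 0 ≤ P x y
  row_sum : ∀ x, ∑ y, P x y = 1
  irred : ∀ x y, ∃ n : ℕ, 0 < (P ^ n) x y
  pi_pos : ∀ x, 0 < π x
  pi_sum : ∑ x, π x = 1
  rev : ∀ x y, π x * P x y = π y * P y x

/-- The law `H_t(x, ·)` at time `t` of the continuous-time chain started at `x`,
`H_t = exp (-t (I - P))`. -/
noncomputable def law (P : Matrix Ω Ω ℝ) (t : ℝ) (x y : Ω) : ℝ :=
  NormedSpace.exp (-t • (1 - P)) x y

/-- The Dirichlet form `𝓔(f,g) = ⟨(I - P) f, g⟩_π`. -/
noncomputable def dir (P : Matrix Ω Ω ℝ) (π : Ω → ℝ) (f g : Ω → ℝ) : ℝ :=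
  ∑ x, π x * ((1 - P).mulVec f x * g x)

/-- The entropy `Ent_π(f) = E_π[f log f] - E_π[f] log E_π[f]`. -/
noncomputable def ent (π : Ω → ℝ) (f : Ω → ℝ) : ℝ :=
  ∑ x, π x * (f x * Real.log (f x)) - (∑ x, π x * f x) * Real.log (∑ x, π x * f x)

/-- The modified log-Sobolev constant: the infimum of `𝓔(e^f, f) / Ent_π(e^f)` over non-constant
`f`. -/
noncomputable def cMLS (P : Matrix Ω Ω ℝ) (π : Ω → ℝ) : ℝ :=
  sInf {r : ℝ | ∃ f : Ω → ℝ, (¬ ∃ c, ∀ x, f x = c) ∧
    r = dir P π (fun x => Real.exp (f x)) f / ent π (fun x => Real.exp (f x))}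

/-- The relative entropy `D(μ ‖ π) = ∑ μ(x) log (μ(x) / π(x))`. -/
noncomputable def KL (μ π : Ω → ℝ) : ℝ :=
  ∑ x, μ x * Real.log (μ x / π x)

/-- The entropy mixing time `max_x inf {t : D(H_t(x,·) ‖ π) ≤ 1/2}`. -/
noncomputable def tauEnt (P : Matrix Ω Ω ℝ) (π : Ω → ℝ) : ℝ≥0∞ :=
  ⨆ x : Ω, ⨅ (t : ℝ≥0) (_ : KL (law P t x) π ≤ 1 / 2), (t : ℝ≥0∞)

/-- The transition matrix killed on leaving `A`. -/
def killed (P : Matrix Ω Ω ℝ) (A : Finset Ω) : Matrix Ω Ω ℝ :=
  fun x y => if x ∈ A ∧ y ∈ A then P x y else 0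

/-- The probability that the discrete chain `Y` with transition matrix `P` started at `x` satisfies
`Y_0, …, Y_n ∈ A`. -/
noncomputable def stay (P : Matrix Ω Ω ℝ) (A : Finset Ω) : ℕ → Ω → ℝ
  | 0, x => if x ∈ A then 1 else 0
  | n + 1, x => if x ∈ A then ∑ y, P x y * stay P A n y else 0

/-- `Pr_x[T_{Aᶜ} > t]` for the continuous-time chain: this chain makes steps of `P` at the times of
a Poisson process of rate one, so it has stayed in `A` up to time `t` if and only if all its steps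
made by time `t` (their number is Poisson with mean `t`) have stayed in `A`. -/
noncomputable def surv (P : Matrix Ω Ω ℝ) (A : Finset Ω) (t : ℝ) (x : Ω) : ℝ :=
  ∑' n : ℕ, Real.exp (-t) * t ^ n / n.factorial * stay P A n x

/-- `A` is connected: `Pr_a[T_b < T_{Aᶜ}] > 0` for all `a, b ∈ A`, that is, from `a` the chain can
reach `b` before leaving `A`. -/
def IsConn (P : Matrix Ω Ω ℝ) (A : Finset Ω) : Prop :=
  ∀ a ∈ A, ∀ b ∈ A, ∃ n : ℕ, 0 < (killed P A ^ n) a b

/-- The entropy hitting-time parameter with constant `Cent`: the maximum over `x` of the least `t`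
such that `Pr_x[T_{Aᶜ} > t] ≤ min (Cent / |log π(A)|) (99/100)` for all connected `A` with
`π(A) ≤ 1/2`. -/
noncomputable def rhoEnt (Cent : ℝ) (P : Matrix Ω Ω ℝ) (π : Ω → ℝ) : ℝ≥0∞ :=
  ⨆ x : Ω, ⨅ (t : ℝ≥0) (_ : ∀ A : Finset Ω, IsConn P A → ∑ a ∈ A, π a ≤ 1 / 2 →
    surv P A t x ≤ min (Cent / |Real.log (∑ a ∈ A, π a)|) (99 / 100)), (t : ℝ≥0∞)

end Q296.MLS
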