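import Pool.Agent.Q296.MLS.Defs

/-!
# General facts: Poisson series of the semigroup
-/

namespace Q296.MLS

open Finset Matrix
open scoped Nat

variable {Ω : Type*} [Fintype Ω] [DecidableEq Ω]

section expo

attribute [local instance] Matrix.linftyOpNormedRing Matrix.linftyOpNormedAlgebra

theorem exp_hasSum (M : Matrix Ω Ω ℝ) (x y : Ω) :
    HasSum (fun n : ℕ => (n ! : ℝ)⁻¹ * (M ^ n) x y) (NormedSpace.exp M x y) := by
  have h : HasSum (fun n : ℕ => ((n ! : ℝ)⁻¹) • M ^ n) (NormedSpace.exp M) :=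
    NormedSpace.exp_series_hasSum_exp' (𝕂 := ℝ) M
  have h2 := h.map (Matrix.entryAddMonoidHom ℝ x y)
    (by
      change Continuous fun A : Matrix Ω Ω ℝ => A x y
      exact Continuous.matrix_elem continuous_id x y)
  simpa [Function.comp_def] using h2

theorem exp_add_smul (P : Matrix Ω Ω ℝ) (t : ℝ) :
    NormedSpace.exp (-t • (1 - P)) = Real.exp (-t) • NormedSpace.exp (t • P) := by
  have h1 : (-t • (1 - P) : Matrix Ω Ω ℝ) = (-t) • (1 : Matrix Ω Ω ℝ) + t • P := by
    rw [smul_sub, neg_smul, neg_smul, sub_neg_eq_add]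
  have hc : Commute ((-t) • (1 : Matrix Ω Ω ℝ)) (t • P) :=
    ((Commute.one_left P).smul_left (-t)).smul_right t
  rw [h1, Matrix.exp_add_of_commute _ _ hc]
  have h2 : NormedSpace.exp ((-t) • (1 : Matrix Ω Ω ℝ)) = Real.exp (-t) • (1 : Matrix Ω Ω ℝ) := by
    have e1 : ((-t) • (1 : Matrix Ω Ω ℝ)) = Matrix.diagonal (fun _ => -t) := by
      ext i j
      by_cases hij : i = j
      · subst hij; simp
      · simp [hij]
    have e2 : (Real.exp (-t) • (1 : Matrix Ω Ω ℝ)) = Matrix.diagonal (fun _ => Real.exp (-t)) := by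
      ext i j
      by_cases hij : i = j
      · subst hij; simp
      · simp [hij]
    rw [e1, e2, Matrix.exp_diagonal]
    congr 1
    ext i
    rw [Pi.coe_exp, ← Real.exp_eq_exp_ℝ]
  rw [h2, smul_mul_assoc, one_mul]

end expo

theorem law_hasSum (P : Matrix Ω Ω ℝ) (t : ℝ) (x y : Ω) :
    HasSum (fun n : ℕ => Real.exp (-t) * t ^ n / n ! * (P ^ n) x y) (law P t x y) := by
  have h := (exp_hasSum (t • P) x y).mul_left (Real.exp (-t))
  have e : law P t x y = Real.exp (-t) * NormedSpace.exp (t • P) x y := by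
    rw [law, exp_add_smul]; rfl
  rw [e]
  have e2 : (fun n : ℕ => Real.exp (-t) * t ^ n / n ! * (P ^ n) x y) =
      fun n : ℕ => Real.exp (-t) * ((n ! : ℝ)⁻¹ * ((t • P) ^ n) x y) := by
    funext n
    rw [smul_pow, Matrix.smul_apply, smul_eq_mul]
    ring
  rw [e2]
  exact h

theorem pois_hasSum (t r : ℝ) :
    HasSum (fun n : ℕ => Real.exp (-t) * t ^ n / n ! * r ^ n) (Real.exp (-(t * (1 - r)))) := by
  have h : HasSum (fun n : ℕ => (t * r) ^ n / n !) (Real.exp (t * r)) := by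
    rw [Real.exp_eq_exp_ℝ]
    exact NormedSpace.expSeries_div_hasSum_exp (t * r)
  have h2 := h.mul_left (Real.exp (-t))
  have e : Real.exp (-t) * Real.exp (t * r) = Real.exp (-(t * (1 - r))) := by
    rw [← Real.exp_add]
    congr 1
    ring
  rw [e] at h2
  have e2 : (fun n : ℕ => Real.exp (-t) * t ^ n / n ! * r ^ n) =
      fun n : ℕ => Real.exp (-t) * ((t * r) ^ n / n !) := by
    funext n
    rw [mul_pow]
    ring
  rw [e2]
  exact h2

theorem pois_nonneg {t : ℝ} (ht : 0 ≤ t) (n : ℕ) : 0 ≤ Real.exp (-t) * t ^ n / n ! := by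
  positivity

end Q296.MLS
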