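import Pool.Agent.Q296.MLS.Mix

/-!
# Conclusion
-/

namespace Q296.MLS

open Finset Matrix
open scoped Nat ENNReal NNReal

theorem exists_k (C B : ℝ) (hC : 0 ≤ C) (hB : 0 < B) :
    ∃ k : ℕ, 4 ≤ k ∧ C * (64 / 5) * Real.log (B * (k + 1)) < (k : ℝ) - 1 ∧
      0 < Real.log (B * (k + 1)) := by
  set ε : ℝ := 1 / (26 * (C + 1) * B) with hε
  have hεpos : 0 < ε := by positivity
  have h1 := Real.isLittleO_log_id_atTop.def hεpos
  rw [Filter.eventually_atTop] at h1
  obtain ⟨x0, hx0⟩ := h1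
  obtain ⟨k0, hk0⟩ := exists_nat_ge ((max x0 2) / B)
  refine ⟨k0 + 4, by omega, ?_, ?_⟩
  · set k : ℕ := k0 + 4 with hk
    have hkr : (4 : ℝ) ≤ k := by rw [hk]; push_cast; linarith [Nat.cast_nonneg (α := ℝ) k0]
    have hx : x0 ≤ B * (k + 1) := by
      have h2 : max x0 2 ≤ B * k0 := by
        rw [div_le_iff₀ hB] at hk0
        linarith
      have h3 : B * k0 ≤ B * (k + 1) := by
        refine mul_le_mul_of_nonneg_left ?_ hB.le
        rw [hk]; push_cast; linarith
      exact (le_max_left _ _).trans (h2.trans h3)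
    have h2 := hx0 _ hx
    rw [Real.norm_eq_abs, Real.norm_eq_abs, id] at h2
    have hpos : 0 < B * ((k : ℝ) + 1) := by positivity
    rw [abs_of_pos hpos] at h2
    have h3 : Real.log (B * (k + 1)) ≤ ε * (B * (k + 1)) := (le_abs_self _).trans h2
    have h4 : C * (64 / 5) * Real.log (B * (k + 1)) ≤ C * (64 / 5) * (ε * (B * (k + 1))) :=
      mul_le_mul_of_nonneg_left h3 (by positivity)
    have h5 : C * (64 / 5) * (ε * (B * (k + 1))) = C / (C + 1) * (64 / 130) * (k + 1) := by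
      rw [hε]; field_simp; ring
    have h6 : C / (C + 1) ≤ 1 := by
      rw [div_le_one (by linarith)]; linarith
    have h7 : C / (C + 1) * (64 / 130) * ((k : ℝ) + 1) ≤ 1 * (64 / 130) * (k + 1) := by
      gcongr
    rw [h5] at h4
    linarith
  · refine Real.log_pos ?_
    have h2 : max x0 2 ≤ B * k0 := by
      rw [div_le_iff₀ hB] at hk0
      linarith
    have h3 : (2 : ℝ) ≤ B * k0 := (le_max_right _ _).trans h2
    push_cast
    nlinarith

theorem main (Cent : ℝ) (hCent : 0 < Cent) (C : ℝ≥0) :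
    ∃ k : ℕ, 0 < cMLS (PP k) (pp k) ∧
      C * rhoEnt Cent (PP k) (pp k) < (ENNReal.ofReal (cMLS (PP k) (pp k)))⁻¹ ∧
      C * tauEnt (PP k) (pp k) < (ENNReal.ofReal (cMLS (PP k) (pp k)))⁻¹ := by
  set B : ℝ := 24 + 6 / Cent with hB
  have hBpos : 0 < B := by positivity
  obtain ⟨k, hk4, hk, hlog⟩ := exists_k C B C.2 hBpos
  have hkr : (4 : ℝ) ≤ k := by exact_mod_cast hk4
  have hc := cMLS_pos k (by omega)
  have hcle := cMLS_le k (by omega)
  have hlam := lam_pos k
  set T : ℝ := Real.log (B * (k + 1)) / lam k with hT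
  have hT0 : 0 ≤ T := by positivity
  have hexp : Real.exp (-(T * lam k)) = 1 / (B * (k + 1)) := by
    rw [hT, div_mul_cancel₀ _ hlam.ne', Real.exp_neg, Real.exp_log (by positivity), one_div]
  have hl16 : Real.log 16 ≤ 2.7726 := by
    rw [log16]
    have := Real.log_two_lt_d9
    linarith
  have hl16p : 0 < Real.log 16 := Real.log_pos (by norm_num)
  have hB24 : 24 ≤ B := by
    have : 0 < 6 / Cent := by positivity
    linarith
  have h1 : 2 * Real.exp (-(T * lam k)) ≤ 99 / 100 := by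
    rw [hexp, mul_one_div, div_le_div_iff₀ (by positivity) (by norm_num)]
    nlinarith
  have h2 : 2 * Real.exp (-(T * lam k)) ≤ Cent / ((k + 1) * Real.log 16) := by
    rw [hexp, mul_one_div, div_le_div_iff₀ (by positivity) (by positivity)]
    have h3 : 6 ≤ Cent * B := by
      rw [hB, mul_add, mul_div_cancel₀ _ hCent.ne']
      nlinarith
    have h4 : 0 < (k : ℝ) + 1 := by linarith
    nlinarith
  have h3 : 2 * Real.exp (-(T * lam k)) ≤ 1 / (12 * (k + 1)) := by
    rw [hexp, mul_one_div, div_le_div_iff₀ (by positivity) (by positivity)]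
    nlinarith
  have hkey : C * T * cMLS (PP k) (pp k) < 1 := by
    have h4 : C * T * cMLS (PP k) (pp k) ≤ C * T * (3 / (2 ^ k * (k - 1))) :=
      mul_le_mul_of_nonneg_left hcle (mul_nonneg C.2 hT0)
    have h5 : C * T * (3 / (2 ^ k * (k - 1))) =
        C * (64 / 5) * Real.log (B * (k + 1)) / (k - 1) := by
      have hk1 : (k : ℝ) - 1 ≠ 0 := by linarith
      rw [hT]
      unfold lam
      field_simp
      ring
    rw [h5] at h4
    refine lt_of_le_of_lt h4 ?_
    rw [div_lt_one (by linarith)]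
    exact hk
  have hinv : (C : ℝ≥0∞) * ENNReal.ofReal T < (ENNReal.ofReal (cMLS (PP k) (pp k)))⁻¹ := by
    rw [← ENNReal.ofReal_inv_of_pos hc]
    have e : (C : ℝ≥0∞) = ENNReal.ofReal (C : ℝ) := (ENNReal.ofReal_coe_nnreal).symm
    rw [e, ← ENNReal.ofReal_mul (NNReal.coe_nonneg C)]
    refine (ENNReal.ofReal_lt_ofReal_iff (inv_pos.2 hc)).2 ?_
    rw [← one_div, lt_div_iff₀ hc]
    exact hkey
  refine ⟨k, hc, lt_of_le_of_lt ?_ hinv, lt_of_le_of_lt ?_ hinv⟩
  · exact mul_le_mul_right (rhoEnt_le k hCent hT0 h1 h2) _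
  · exact mul_le_mul_right (tauEnt_le k hT0 h3) _

end Q296.MLS
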