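import Pool.Agent.Q296.MLS.Times

/-!
# The entropy mixing time of the chain
-/

namespace Q296.MLS

open Finset Matrix
open scoped Nat ENNReal NNReal

theorem pow_row {n : ℕ} {P : Matrix (Fin n) (Fin n) ℝ} (h : ∀ x, ∑ y, P x y = 1) (m : ℕ)
    (x : Fin n) : ∑ y, (P ^ m) x y = 1 := by
  induction m generalizing x with
  | zero => simp [Matrix.one_apply]
  | succ m ih =>
    simp only [pow_succ', Matrix.mul_apply]
    rw [Finset.sum_comm]
    simp only [← Finset.mul_sum, ih, mul_one, h]

theorem pow_rev {n : ℕ} {P : Matrix (Fin n) (Fin n) ℝ} {π : Fin n → ℝ}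
    (h : ∀ x y, π x * P x y = π y * P y x) (m : ℕ)
    (x y : Fin n) : π x * (P ^ m) x y = π y * (P ^ m) y x := by
  induction m generalizing x y with
  | zero =>
    by_cases hxy : x = y
    · subst hxy; rfl
    · simp [Matrix.one_apply, hxy, Ne.symm hxy]
  | succ m ih =>
    have e1 : (P ^ (m + 1)) x y = ∑ z, P x z * (P ^ m) z y := by
      rw [pow_succ', Matrix.mul_apply]
    have e2 : (P ^ (m + 1)) y x = ∑ z, (P ^ m) y z * P z x := by
      rw [pow_succ, Matrix.mul_apply]
    rw [e1, e2, Finset.mul_sum, Finset.mul_sum]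
    refine Finset.sum_congr rfl fun z _ => ?_
    rw [← mul_assoc, h x z, mul_right_comm, ih z y]
    ring

theorem stay_succ {n : ℕ} {P : Matrix (Fin n) (Fin n) ℝ} {A : Finset (Fin n)} {x : Fin n}
    (hx : x ∈ A) (m : ℕ) : stay P A (m + 1) x = ∑ y, P x y * stay P A m y := by
  show (if x ∈ A then ∑ y, P x y * stay P A m y else 0) = _
  rw [if_pos hx]

/-- Distance to the right end. -/
noncomputable def hh (k : ℕ) (x : Fin (k + 1)) : ℝ := (k : ℝ) - (x : ℕ)

theorem hh_nonneg (k : ℕ) (x : Fin (k + 1)) : 0 ≤ hh k x := by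
  unfold hh
  have : ((x : ℕ) : ℝ) ≤ k := by
    have := x.2
    exact_mod_cast (by omega : (x : ℕ) ≤ k)
  linarith

theorem hh_le (k : ℕ) (x : Fin (k + 1)) : hh k x ≤ k := by
  unfold hh
  have : (0 : ℝ) ≤ ((x : ℕ) : ℝ) := Nat.cast_nonneg _
  linarith

theorem sum_hh (k : ℕ) : ∑ y : Fin (k + 1), hh k y * 16 ^ (y : ℕ) ≤ 16 / 225 * 16 ^ k := by
  induction k with
  | zero => norm_num [hh]
  | succ k ih =>
    rw [Fin.sum_univ_castSucc]
    have e : ∀ y : Fin (k + 1), hh (k + 1) y.castSucc * 16 ^ ((y.castSucc : Fin (k + 2)) : ℕ) =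
        hh k y * 16 ^ (y : ℕ) + 16 ^ (y : ℕ) := by
      intro y
      unfold hh
      simp only [Fin.val_castSucc, Nat.cast_add, Nat.cast_one]
      ring
    simp only [e]
    rw [Finset.sum_add_distrib]
    have h1 := ZZ_le k
    unfold ZZ at h1
    have h2 : hh (k + 1) (Fin.last (k + 1)) = 0 := by unfold hh; simp
    rw [h2, zero_mul, add_zero, pow_succ]
    linarith

theorem Pn_hh (k m : ℕ) (x : Fin (k + 1)) : ∑ y, (PP k ^ m) x y * hh k y ≤
    k * stay (PP k) (Finset.univ.erase (Fin.last k)) m x + 16 / 225 := by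
  have hk0 : (0 : ℝ) ≤ k := Nat.cast_nonneg k
  have hlast : ∀ m : ℕ, ∑ y, (PP k ^ m) (Fin.last k) y * hh k y ≤ 16 / 225 := by
    intro m
    have h1 : ∀ y, (PP k ^ m) (Fin.last k) y ≤ 16 ^ (y : ℕ) / 16 ^ k := by
      intro y
      have h2 := pow_rev (PP_rev k) m (Fin.last k) y
      have h3 : (PP k ^ m) y (Fin.last k) ≤ 1 := by
        rw [← pow_row (PP_row k) m y]
        exact Finset.single_le_sum (f := fun z => (PP k ^ m) y z)
          (fun z _ => pow_nonneg_mat (PP_nonneg k) m y z) (Finset.mem_univ _)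
      have h4 : pp k (Fin.last k) * (PP k ^ m) (Fin.last k) y ≤ pp k y := by
        rw [h2]
        have := mul_le_mul_of_nonneg_left h3 (pp_pos k y).le
        linarith
      unfold pp at h4
      rw [Fin.val_last] at h4
      have hZ := ZZ_pos k
      rw [div_mul_eq_mul_div, div_le_div_iff_of_pos_right hZ] at h4
      rw [le_div_iff₀ (by positivity)]
      linarith
    calc ∑ y, (PP k ^ m) (Fin.last k) y * hh k y
        ≤ ∑ y : Fin (k + 1), 16 ^ (y : ℕ) / 16 ^ k * hh k y :=
          Finset.sum_le_sum fun y _ => mul_le_mul_of_nonneg_right (h1 y) (hh_nonneg k y)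
      _ = (∑ y : Fin (k + 1), hh k y * 16 ^ (y : ℕ)) / 16 ^ k := by
          rw [Finset.sum_div]
          exact Finset.sum_congr rfl fun y _ => by ring
      _ ≤ (16 / 225 * 16 ^ k) / 16 ^ k := by
          gcongr
          exact sum_hh k
      _ = 16 / 225 := by field_simp
  induction m generalizing x with
  | zero =>
    by_cases hx : x = Fin.last k
    · subst hx
      refine le_trans (hlast 0) ?_
      have := mul_nonneg hk0 (stay_nonneg (PP_nonneg k) (Finset.univ.erase (Fin.last k)) 0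
        (Fin.last k))
      linarith
    · have h1 : ∑ y, (PP k ^ 0) x y * hh k y = hh k x := by simp [Matrix.one_apply]
      rw [h1]
      have h2 : stay (PP k) (Finset.univ.erase (Fin.last k)) 0 x = 1 := by
        unfold stay
        rw [if_pos]
        simp [hx]
      rw [h2]
      have := hh_le k x
      linarith
  | succ m ih =>
    by_cases hx : x = Fin.last k
    · subst hx
      refine le_trans (hlast (m + 1)) ?_
      have := mul_nonneg hk0 (stay_nonneg (PP_nonneg k) (Finset.univ.erase (Fin.last k)) (m + 1)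
        (Fin.last k))
      linarith
    · have h2 : stay (PP k) (Finset.univ.erase (Fin.last k)) (m + 1) x =
          ∑ y, PP k x y * stay (PP k) (Finset.univ.erase (Fin.last k)) m y :=
        stay_succ (Finset.mem_erase.2 ⟨hx, Finset.mem_univ _⟩) m
      rw [h2]
      have h3 : ∑ y, (PP k ^ (m + 1)) x y * hh k y =
          ∑ z, PP k x z * ∑ y, (PP k ^ m) z y * hh k y := by
        simp only [pow_succ', Matrix.mul_apply, Finset.sum_mul, Finset.mul_sum]
        rw [Finset.sum_comm]
        refine Finset.sum_congr rfl fun z _ => Finset.sum_congr rfl fun y _ => ?_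
        ring
      rw [h3]
      calc ∑ z, PP k x z * ∑ y, (PP k ^ m) z y * hh k y
          ≤ ∑ z, PP k x z * (k * stay (PP k) (Finset.univ.erase (Fin.last k)) m z + 16 / 225) :=
            Finset.sum_le_sum fun z _ => mul_le_mul_of_nonneg_left (ih z) (PP_nonneg k x z)
        _ = k * (∑ z, PP k x z * stay (PP k) (Finset.univ.erase (Fin.last k)) m z) +
            (∑ z, PP k x z) * (16 / 225) := by
            rw [Finset.mul_sum, Finset.sum_mul, ← Finset.sum_add_distrib]
            exact Finset.sum_congr rfl fun z _ => by ring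
        _ = _ := by rw [PP_row, one_mul]

theorem law_nonneg (k : ℕ) {t : ℝ} (ht : 0 ≤ t) (x y : Fin (k + 1)) : 0 ≤ law (PP k) t x y :=
  (law_hasSum (PP k) t x y).nonneg fun n =>
    mul_nonneg (pois_nonneg ht n) (pow_nonneg_mat (PP_nonneg k) n x y)

theorem law_sum (k : ℕ) (t : ℝ) (x : Fin (k + 1)) : ∑ y, law (PP k) t x y = 1 := by
  have h1 := hasSum_sum fun (y : Fin (k + 1)) (_ : y ∈ Finset.univ) => law_hasSum (PP k) t x y
  have h2 := pois_hasSum t 1
  have e : (fun n : ℕ => ∑ y : Fin (k + 1), Real.exp (-t) * t ^ n / n ! * (PP k ^ n) x y) =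
      fun n : ℕ => Real.exp (-t) * t ^ n / n ! * 1 ^ n := by
    funext n
    rw [← Finset.mul_sum, pow_row (PP_row k), one_pow]
  rw [e] at h1
  have := h1.unique h2
  rw [this]
  simp

theorem law_le_one (k : ℕ) {t : ℝ} (ht : 0 ≤ t) (x y : Fin (k + 1)) : law (PP k) t x y ≤ 1 := by
  rw [← law_sum k t x]
  exact Finset.single_le_sum (fun z _ => law_nonneg k ht x z) (Finset.mem_univ y)

theorem law_hh (k : ℕ) {t : ℝ} (ht : 0 ≤ t) (x : Fin (k + 1)) :
    ∑ y, law (PP k) t x y * hh k y ≤ k * (2 * Real.exp (-(t * lam k))) + 16 / 225 := by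
  have h1 := hasSum_sum fun (y : Fin (k + 1)) (_ : y ∈ Finset.univ) =>
    (law_hasSum (PP k) t x y).mul_right (hh k y)
  have h2 := (pois_hasSum t (1 - lam k)).mul_right ((k : ℝ) * 2)
  have h3 := (pois_hasSum t 1).mul_right ((16 : ℝ) / 225)
  rw [sub_sub_cancel] at h2
  have h4 := h2.add h3
  have h5 : ∑ y, law (PP k) t x y * hh k y ≤ Real.exp (-(t * lam k)) * (k * 2) +
      Real.exp (-(t * (1 - 1))) * (16 / 225) := by
    refine hasSum_le (fun n => ?_) h1 h4
    have e : ∑ y : Fin (k + 1), Real.exp (-t) * t ^ n / n ! * (PP k ^ n) x y * hh k y =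
        Real.exp (-t) * t ^ n / n ! * ∑ y, (PP k ^ n) x y * hh k y := by
      rw [Finset.mul_sum]
      exact Finset.sum_congr rfl fun y _ => by ring
    rw [e]
    have e2 : Real.exp (-t) * t ^ n / n ! * (1 - lam k) ^ n * (k * 2) +
        Real.exp (-t) * t ^ n / n ! * 1 ^ n * (16 / 225) =
        Real.exp (-t) * t ^ n / n ! * (k * ((1 - lam k) ^ n * 2) + 16 / 225) := by
      rw [one_pow]; ring
    rw [e2]
    refine mul_le_mul_of_nonneg_left (le_trans (Pn_hh k n x) ?_) (pois_nonneg ht n)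
    have hl : 0 ≤ 1 - lam k := by have := lam_le k; linarith
    have h6 : stay (PP k) (Finset.univ.erase (Fin.last k)) n x ≤ (1 - lam k) ^ n * 2 :=
      (stay_le k _ (by simp) n x).trans (mul_le_mul_of_nonneg_left (vv_le k x) (pow_nonneg hl n))
    have h7 := mul_le_mul_of_nonneg_left h6 (Nat.cast_nonneg (α := ℝ) k)
    linarith
  simp only [sub_self, mul_zero, neg_zero, Real.exp_zero, one_mul] at h5
  linarith

theorem KL_le (k : ℕ) {t : ℝ} (ht : 0 ≤ t) (x : Fin (k + 1))
    (h : 2 * Real.exp (-(t * lam k)) ≤ 1 / (12 * (k + 1))) :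
    KL (law (PP k) t x) (pp k) ≤ 1 / 2 := by
  have hk0 : (0 : ℝ) ≤ k := Nat.cast_nonneg k
  have hlogpp : ∀ y, - Real.log (pp k y) = - Real.log (pp k (Fin.last k)) +
      hh k y * Real.log 16 := by
    intro y
    unfold pp hh
    have hZ := ZZ_pos k
    rw [Real.log_div (by positivity) hZ.ne', Real.log_div (by positivity) hZ.ne', Real.log_pow,
      Real.log_pow, Fin.val_last]
    ring
  have h1 : ∀ y, law (PP k) t x y * Real.log (law (PP k) t x y / pp k y) ≤
      law (PP k) t x y * (- Real.log (pp k (Fin.last k))) +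
      law (PP k) t x y * hh k y * Real.log 16 := by
    intro y
    have hl0 := law_nonneg k ht x y
    have hl1 := law_le_one k ht x y
    rcases hl0.eq_or_lt with h0 | h0
    · rw [← h0]; simp
    · have h2 : Real.log (law (PP k) t x y / pp k y) ≤ - Real.log (pp k y) := by
        rw [Real.log_div h0.ne' (pp_pos k y).ne']
        have := Real.log_nonpos hl0 hl1
        linarith
      have h3 := mul_le_mul_of_nonneg_left h2 hl0
      rw [hlogpp y] at h3
      linarith
  have h2 : - Real.log (pp k (Fin.last k)) ≤ 1 / 15 := by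
    have h3 := Real.log_le_sub_one_of_pos (inv_pos.2 (pp_pos k (Fin.last k)))
    rw [Real.log_inv] at h3
    have h4 : (pp k (Fin.last k))⁻¹ ≤ (15 / 16 : ℝ)⁻¹ :=
      inv_anti₀ (by norm_num) (pp_last_gt k)
    have h5 : ((15 : ℝ) / 16)⁻¹ = 16 / 15 := by norm_num
    rw [h5] at h4
    linarith
  have h3 := law_hh k ht x
  have h4 : Real.log 16 ≤ 2.7726 := by
    rw [log16]
    have := Real.log_two_lt_d9
    linarith
  have h5 : 0 < Real.log 16 := Real.log_pos (by norm_num)
  have h6 : (k : ℝ) * (2 * Real.exp (-(t * lam k))) ≤ 1 / 12 := by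
    calc (k : ℝ) * (2 * Real.exp (-(t * lam k))) ≤ k * (1 / (12 * (k + 1))) :=
          mul_le_mul_of_nonneg_left h hk0
      _ ≤ 1 / 12 := by
        rw [mul_one_div, div_le_div_iff₀ (by positivity) (by norm_num)]
        linarith
  unfold KL
  calc ∑ y, law (PP k) t x y * Real.log (law (PP k) t x y / pp k y)
      ≤ ∑ y, (law (PP k) t x y * (- Real.log (pp k (Fin.last k))) +
      law (PP k) t x y * hh k y * Real.log 16) := Finset.sum_le_sum fun y _ => h1 y
    _ = - Real.log (pp k (Fin.last k)) + (∑ y, law (PP k) t x y * hh k y) * Real.log 16 := by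
      rw [Finset.sum_add_distrib, ← Finset.sum_mul, ← Finset.sum_mul, law_sum, one_mul]
    _ ≤ 1 / 15 + (1 / 12 + 16 / 225) * 2.7726 := by
      have h7 : (∑ y, law (PP k) t x y * hh k y) * Real.log 16 ≤
          (1 / 12 + 16 / 225) * Real.log 16 := by
        refine mul_le_mul_of_nonneg_right ?_ h5.le
        linarith
      have h8 : ((1 : ℝ) / 12 + 16 / 225) * Real.log 16 ≤ (1 / 12 + 16 / 225) * 2.7726 :=
        mul_le_mul_of_nonneg_left h4 (by norm_num)
      linarith
    _ ≤ 1 / 2 := by norm_num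

theorem tauEnt_le (k : ℕ) {T : ℝ} (hT : 0 ≤ T)
    (h : 2 * Real.exp (-(T * lam k)) ≤ 1 / (12 * (k + 1))) :
    tauEnt (PP k) (pp k) ≤ ENNReal.ofReal T := by
  unfold tauEnt
  refine iSup_le fun x => ?_
  refine iInf₂_le (Real.toNNReal T) ?_
  rw [Real.coe_toNNReal T hT]
  exact KL_le k hT x h

end Q296.MLS
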