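import Pool.Agent.Q296.MLS.Upper

/-!
# Survival probabilities and entropy decay for the chain
-/

namespace Q296.MLS

open Finset Matrix
open scoped Nat ENNReal NNReal

/-- A bounded supersolution. -/
noncomputable def vv (k : ℕ) (x : Fin (k + 1)) : ℝ := 1 + (1 / 2) ^ (x : ℕ)

/-- The decay rate. -/
noncomputable def lam (k : ℕ) : ℝ := 15 / 64 / 2 ^ k

theorem lam_pos (k : ℕ) : 0 < lam k := by unfold lam; positivity

theorem lam_le (k : ℕ) : lam k ≤ 1 / 4 := by
  unfold lam
  rw [div_le_iff₀ (by positivity)]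
  have : (1 : ℝ) ≤ 2 ^ k := one_le_pow₀ (by norm_num)
  linarith

theorem vv_ge (k : ℕ) (x : Fin (k + 1)) : 1 ≤ vv k x := by
  unfold vv
  have : (0 : ℝ) ≤ (1 / 2) ^ (x : ℕ) := by positivity
  linarith

theorem vv_le (k : ℕ) (x : Fin (k + 1)) : vv k x ≤ 2 := by
  unfold vv
  have : ((1 : ℝ) / 2) ^ (x : ℕ) ≤ 1 := pow_le_one₀ (by norm_num) (by norm_num)
  linarith

theorem sum_dl_castSucc (k : ℕ) (x : Fin (k + 1)) (hx : x ≠ Fin.last k) :
    ∑ i : Fin k, dl x i.castSucc = 1 := by
  obtain ⟨i, rfl⟩ := Fin.exists_castSucc_eq.2 hx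
  simp [dl]

theorem sum_dl_succ (k : ℕ) (x : Fin (k + 1)) : ∑ i : Fin k, dl x i.succ ≤ 1 := by
  by_cases hx : ∃ i : Fin k, x = i.succ
  · obtain ⟨i, rfl⟩ := hx
    simp [dl]
  · have : ∀ i : Fin k, dl x i.succ = 0 := fun i => by
      unfold dl; rw [if_neg]; exact fun h => hx ⟨i, h⟩
    simp [this]

theorem PP_vv (k : ℕ) (x : Fin (k + 1)) (hx : x ≠ Fin.last k) :
    ∑ y, PP k x y * vv k y ≤ (1 - lam k) * vv k x := by
  have h1 : ∑ y, PP k x y * vv k y = vv k x - (LL k).mulVec (vv k) x := by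
    have : (PP k).mulVec (vv k) x = vv k x - (LL k).mulVec (vv k) x := by
      unfold PP
      rw [Matrix.sub_mulVec, Matrix.one_mulVec]; rfl
    rw [← this]; rfl
  have h2 : (LL k).mulVec (vv k) x = 1 / 2 ^ (k + 1) * (∑ i : Fin k, dl x i.castSucc) -
      1 / 2 ^ (k + 1) / 16 * ∑ i : Fin k, dl x i.succ := by
    rw [LL_mulVec, Finset.mul_sum, Finset.mul_sum, ← Finset.sum_sub_distrib]
    refine Finset.sum_congr rfl fun i _ => ?_
    have e : ar k i * (vv k i.castSucc - vv k i.succ) = 1 / 2 ^ (k + 1) := by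
      unfold ar vv
      simp only [Fin.val_succ, Fin.val_castSucc, pow_succ, div_pow, one_pow]
      field_simp
      ring
    have e2 : ar k i * dl x i.castSucc * (vv k i.castSucc - vv k i.succ) +
      ar k i / 16 * dl x i.succ * (vv k i.succ - vv k i.castSucc) =
      (ar k i * (vv k i.castSucc - vv k i.succ)) * dl x i.castSucc -
      (ar k i * (vv k i.castSucc - vv k i.succ)) / 16 * dl x i.succ := by ring
    rw [e2, e]
  rw [h1, h2, sum_dl_castSucc k x hx]
  have h3 := sum_dl_succ k x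
  have h4 := vv_le k x
  have h5 : (0 : ℝ) < 1 / 2 ^ (k + 1) := by positivity
  have h6 : 1 / 2 ^ (k + 1) / 16 * ∑ i : Fin k, dl x i.succ ≤ 1 / 2 ^ (k + 1) / 16 * 1 :=
    mul_le_mul_of_nonneg_left h3 (by positivity)
  have h7 : lam k = 15 / 32 * (1 / 2 ^ (k + 1)) := by
    unfold lam; rw [pow_succ]; field_simp; norm_num
  have h8 : lam k * vv k x ≤ lam k * 2 := mul_le_mul_of_nonneg_left h4 (lam_pos k).le
  nlinarith

theorem stay_nonneg {n : ℕ} {P : Matrix (Fin n) (Fin n) ℝ} (hP : ∀ x y, 0 ≤ P x y)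
    (A : Finset (Fin n)) (m : ℕ) (x : Fin n) : 0 ≤ stay P A m x := by
  induction m generalizing x with
  | zero => unfold stay; split_ifs <;> norm_num
  | succ m ih =>
    unfold stay
    split_ifs
    · exact Finset.sum_nonneg fun y _ => mul_nonneg (hP x y) (ih y)
    · exact le_rfl

theorem stay_le (k : ℕ) (A : Finset (Fin (k + 1))) (hA : Fin.last k ∉ A) (m : ℕ)
    (x : Fin (k + 1)) : stay (PP k) A m x ≤ (1 - lam k) ^ m * vv k x := by
  have hl : 0 ≤ 1 - lam k := by have := lam_le k; linarith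
  induction m generalizing x with
  | zero =>
    unfold stay
    have := vv_ge k x
    split_ifs <;> simp <;> linarith
  | succ m ih =>
    unfold stay
    split_ifs with hx
    · have hx' : x ≠ Fin.last k := fun h => hA (h ▸ hx)
      calc ∑ y, PP k x y * stay (PP k) A m y
          ≤ ∑ y, PP k x y * ((1 - lam k) ^ m * vv k y) :=
            Finset.sum_le_sum fun y _ => mul_le_mul_of_nonneg_left (ih y) (PP_nonneg k x y)
        _ = (1 - lam k) ^ m * ∑ y, PP k x y * vv k y := by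
            rw [Finset.mul_sum]
            exact Finset.sum_congr rfl fun y _ => by ring
        _ ≤ (1 - lam k) ^ m * ((1 - lam k) * vv k x) :=
            mul_le_mul_of_nonneg_left (PP_vv k x hx') (pow_nonneg hl m)
        _ = _ := by rw [pow_succ]; ring
    · have := vv_ge k x
      positivity

theorem surv_le (k : ℕ) (A : Finset (Fin (k + 1))) (hA : Fin.last k ∉ A) {t : ℝ} (ht : 0 ≤ t)
    (x : Fin (k + 1)) : surv (PP k) A t x ≤ 2 * Real.exp (-(t * lam k)) := by
  have h1 := (pois_hasSum t (1 - lam k)).mul_right 2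
  rw [sub_sub_cancel] at h1
  have h2 : ∀ n : ℕ, Real.exp (-t) * t ^ n / n ! * stay (PP k) A n x ≤
      Real.exp (-t) * t ^ n / n ! * (1 - lam k) ^ n * 2 := by
    intro n
    rw [mul_assoc _ _ (2 : ℝ)]
    refine mul_le_mul_of_nonneg_left ?_ (pois_nonneg ht n)
    refine le_trans (stay_le k A hA n x) ?_
    have hl : 0 ≤ 1 - lam k := by have := lam_le k; linarith
    exact mul_le_mul_of_nonneg_left (vv_le k x) (pow_nonneg hl n)
  have h3 : Summable fun n : ℕ => Real.exp (-t) * t ^ n / n ! * stay (PP k) A n x :=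
    Summable.of_nonneg_of_le (fun n => mul_nonneg (pois_nonneg ht n)
      (stay_nonneg (PP_nonneg k) A n x)) h2 h1.summable
  unfold surv
  calc _ ≤ ∑' n : ℕ, Real.exp (-t) * t ^ n / n ! * (1 - lam k) ^ n * 2 :=
        h3.tsum_le_tsum h2 h1.summable
    _ = Real.exp (-(t * lam k)) * 2 := h1.tsum_eq
    _ = _ := by ring

theorem pp_last_gt (k : ℕ) : 15 / 16 ≤ pp k (Fin.last k) := by
  unfold pp
  rw [Fin.val_last, le_div_iff₀ (ZZ_pos k)]
  have := ZZ_le k
  linarith

theorem last_not_mem (k : ℕ) (A : Finset (Fin (k + 1))) (hA : ∑ a ∈ A, pp k a ≤ 1 / 2) :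
    Fin.last k ∉ A := by
  intro h
  have h1 : pp k (Fin.last k) ≤ ∑ a ∈ A, pp k a :=
    Finset.single_le_sum (fun y _ => (pp_pos k y).le) h
  have := pp_last_gt k
  linarith

theorem rhoEnt_le (k : ℕ) {Cent T : ℝ} (hCent : 0 < Cent) (hT : 0 ≤ T)
    (h1 : 2 * Real.exp (-(T * lam k)) ≤ 99 / 100)
    (h2 : 2 * Real.exp (-(T * lam k)) ≤ Cent / ((k + 1) * Real.log 16)) :
    rhoEnt Cent (PP k) (pp k) ≤ ENNReal.ofReal T := by
  unfold rhoEnt
  refine iSup_le fun x => ?_
  refine iInf₂_le (Real.toNNReal T) ?_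
  intro A _ hA
  rw [Real.coe_toNNReal T hT]
  have hl := last_not_mem k A hA
  have hs := surv_le k A hl hT x
  have hlog16 : 0 < Real.log 16 := Real.log_pos (by norm_num)
  refine le_min ?_ (hs.trans h1)
  by_cases hne : A.Nonempty
  · obtain ⟨a, ha⟩ := hne
    have h3 : pp k a ≤ ∑ a ∈ A, pp k a :=
      Finset.single_le_sum (fun y _ => (pp_pos k y).le) ha
    have h4 : 1 / ZZ k ≤ ∑ a ∈ A, pp k a := (pp_ge k a).trans h3
    have hZ := ZZ_pos k
    have hpos : 0 < ∑ a ∈ A, pp k a := lt_of_lt_of_le (by positivity) h4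
    have h5 : Real.log (1 / ZZ k) ≤ Real.log (∑ a ∈ A, pp k a) :=
      Real.log_le_log (by positivity) h4
    rw [one_div, Real.log_inv] at h5
    have h6 : Real.log (∑ a ∈ A, pp k a) < 0 := Real.log_neg hpos (by linarith)
    have h7 : Real.log (ZZ k) ≤ (k + 1) * Real.log 16 := by
      have : Real.log (ZZ k) ≤ Real.log (16 ^ (k + 1)) := by
        refine Real.log_le_log hZ ?_
        have := ZZ_le k
        have h8 : (0 : ℝ) < 16 ^ k := by positivity
        rw [pow_succ]
        linarith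
      rw [Real.log_pow] at this
      exact_mod_cast this
    have h8 : |Real.log (∑ a ∈ A, pp k a)| ≤ (k + 1) * Real.log 16 := by
      rw [abs_of_neg h6]; linarith
    have h9 : 0 < |Real.log (∑ a ∈ A, pp k a)| := abs_pos.2 h6.ne
    exact (hs.trans h2).trans (div_le_div_of_nonneg_left hCent.le h9 h8)
  · rw [Finset.not_nonempty_iff_eq_empty] at hne
    subst hne
    have : surv (PP k) ∅ T x = 0 := by
      unfold surv
      have : ∀ n : ℕ, stay (PP k) ∅ n x = 0 := by
        intro n; cases n <;> simp [stay]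
      simp [this]
    rw [this]
    simp

end Q296.MLS
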