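import Pool.Agent.Q296.MLS.Const

/-!
# The test function
-/

namespace Q296.MLS

open Finset Matrix

theorem sumW (n : ℕ) : ∑ i ∈ range n, (i : ℝ) * (1 / 4) ^ i =
    4 / 9 - (3 * n + 1) * (4 / 9) * (1 / 4) ^ n := by
  induction n with
  | zero => norm_num
  | succ n ih =>
    rw [Finset.sum_range_succ, ih, pow_succ]
    push_cast
    ring

/-- The test function. -/
noncomputable def tf (k : ℕ) (x : Fin (k + 1)) : ℝ := ((k : ℝ) - (x : ℕ)) * Real.log 64

theorem exp_tf (k : ℕ) (x : Fin (k + 1)) : Real.exp (tf k x) = 64 ^ k / 64 ^ (x : ℕ) := by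
  unfold tf
  rw [sub_mul, Real.exp_sub, Real.exp_nat_mul, Real.exp_nat_mul, Real.exp_log (by norm_num)]

theorem pp_exp_tf (k : ℕ) (x : Fin (k + 1)) :
    pp k x * Real.exp (tf k x) = 64 ^ k / ZZ k * (1 / 4) ^ (x : ℕ) := by
  rw [exp_tf]
  unfold pp
  have h1 : (64 : ℝ) ^ (x : ℕ) = 16 ^ (x : ℕ) * 4 ^ (x : ℕ) := by
    rw [← mul_pow]; norm_num
  rw [h1, div_pow, one_pow]
  have := ZZ_pos k
  field_simp

theorem tf_nonconst (k : ℕ) (hk : 1 ≤ k) : ¬ ∃ c, ∀ x, tf k x = c := by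
  rintro ⟨c, h⟩
  have h0 := h 0
  have h1 := h (Fin.last k)
  rw [← h1] at h0
  unfold tf at h0
  simp only [Fin.val_zero, Fin.val_last, Nat.cast_zero, sub_zero, sub_self, zero_mul,
    mul_eq_zero] at h0
  rcases h0 with h0 | h0
  · have : k = 0 := by exact_mod_cast h0
    omega
  · have := Real.log_pos (by norm_num : (1 : ℝ) < 64)
    linarith

theorem log64 : Real.log 64 = 6 * Real.log 2 := by
  rw [show (64 : ℝ) = 2 ^ 6 by norm_num, Real.log_pow]; norm_num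

theorem log16 : Real.log 16 = 4 * Real.log 2 := by
  rw [show (16 : ℝ) = 2 ^ 4 by norm_num, Real.log_pow]; norm_num

theorem dir_tf_le (k : ℕ) : dir (PP k) (pp k) (fun x => Real.exp (tf k x)) (tf k) ≤
    64 ^ k / ZZ k * (12 * Real.log 2 / 2 ^ k) := by
  rw [dir_eq]
  have hZ := ZZ_pos k
  have hl := Real.log_pos (by norm_num : (1 : ℝ) < 2)
  have e : ∀ i : Fin k, pp k i.castSucc * ar k i *
      ((Real.exp (tf k i.castSucc) - Real.exp (tf k i.succ)) * (tf k i.castSucc - tf k i.succ)) =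
      64 ^ k / ZZ k * (63 / 64 * (6 * Real.log 2) / 2 ^ k) * (1 / 2) ^ (i : ℕ) := by
    intro i
    have h1 : Real.exp (tf k i.succ) = Real.exp (tf k i.castSucc) / 64 := by
      rw [exp_tf, exp_tf]
      simp only [Fin.val_succ, Fin.val_castSucc, pow_succ]
      field_simp
    have h2 : tf k i.castSucc - tf k i.succ = 6 * Real.log 2 := by
      unfold tf
      simp only [Fin.val_succ, Fin.val_castSucc, Nat.cast_add, Nat.cast_one]
      rw [log64]
      ring
    have h3 := pp_exp_tf k i.castSucc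
    simp only [Fin.val_castSucc] at h3
    rw [h1, h2]
    have h4 : pp k i.castSucc * ar k i * ((Real.exp (tf k i.castSucc) -
        Real.exp (tf k i.castSucc) / 64) * (6 * Real.log 2)) =
        (pp k i.castSucc * Real.exp (tf k i.castSucc)) * (ar k i * (63 / 64) * (6 * Real.log 2)) :=
      by ring
    rw [h4, h3]
    unfold ar
    have h5 : (4 : ℝ) ^ (i : ℕ) = 2 ^ (i : ℕ) * 2 ^ (i : ℕ) := by
      rw [← mul_pow]; norm_num
    rw [div_pow, div_pow, one_pow, h5]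
    field_simp
  simp only [e]
  rw [← Finset.mul_sum]
  have h6 : ∑ i : Fin k, ((1 : ℝ) / 2) ^ (i : ℕ) ≤ 2 := by
    rw [Fin.sum_univ_eq_sum_range (fun i => ((1 : ℝ) / 2) ^ i) k, geom_sum_eq (by norm_num)]
    have : (0 : ℝ) ≤ (1 / 2) ^ k := by positivity
    rw [div_le_iff_of_neg (by norm_num)]
    linarith
  calc 64 ^ k / ZZ k * (63 / 64 * (6 * Real.log 2) / 2 ^ k) * ∑ i : Fin k, ((1 : ℝ) / 2) ^ (i : ℕ)
      ≤ 64 ^ k / ZZ k * (63 / 64 * (6 * Real.log 2) / 2 ^ k) * 2 := by gcongr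
    _ = 64 ^ k / ZZ k * (63 / 64 * (12 * Real.log 2) / 2 ^ k) := by ring
    _ ≤ 64 ^ k / ZZ k * (12 * Real.log 2 / 2 ^ k) := by
      refine mul_le_mul_of_nonneg_left (div_le_div_of_nonneg_right ?_ (by positivity))
        (by positivity)
      linarith

theorem ent_tf_ge (k : ℕ) : 64 ^ k / ZZ k * (Real.log 2 * (4 * k - 4)) ≤
    ent (pp k) (fun x => Real.exp (tf k x)) := by
  have hZ := ZZ_pos k
  have hl := Real.log_pos (by norm_num : (1 : ℝ) < 2)
  set c0 : ℝ := 64 ^ k / ZZ k with hc0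
  have hc0p : 0 < c0 := by positivity
  set S : ℝ := ∑ x : Fin (k + 1), (1 / 4 : ℝ) ^ (x : ℕ) with hS
  set W : ℝ := ∑ x : Fin (k + 1), ((x : ℕ) : ℝ) * (1 / 4 : ℝ) ^ (x : ℕ) with hW
  have hm : ∑ x, pp k x * Real.exp (tf k x) = c0 * S := by
    rw [hS, Finset.mul_sum]
    exact Finset.sum_congr rfl fun x _ => pp_exp_tf k x
  have hS1 : 1 ≤ S := by
    rw [hS]
    have : (1 / 4 : ℝ) ^ ((0 : Fin (k + 1)) : ℕ) ≤ ∑ x : Fin (k + 1), (1 / 4 : ℝ) ^ (x : ℕ) :=
      Finset.single_le_sum (f := fun x : Fin (k + 1) => (1 / 4 : ℝ) ^ (x : ℕ))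
        (fun y _ => by positivity) (Finset.mem_univ 0)
    simpa using this
  have hS2 : S ≤ 4 / 3 := by
    rw [hS, Fin.sum_univ_eq_sum_range (fun i => ((1 : ℝ) / 4) ^ i) (k + 1),
      geom_sum_eq (by norm_num)]
    have : (0 : ℝ) ≤ (1 / 4) ^ (k + 1) := by positivity
    rw [div_le_iff_of_neg (by norm_num)]
    linarith
  have hW2 : W ≤ 4 / 9 := by
    rw [hW, Fin.sum_univ_eq_sum_range (fun i => (i : ℝ) * ((1 : ℝ) / 4) ^ i) (k + 1), sumW]
    have : (0 : ℝ) ≤ (3 * ((k + 1 : ℕ) : ℝ) + 1) * (4 / 9) * (1 / 4) ^ (k + 1) := by positivity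
    linarith
  have h1 : ∑ x, pp k x * (Real.exp (tf k x) * Real.log (Real.exp (tf k x))) =
      c0 * (k * S - W) * Real.log 64 := by
    have e : ∀ x, pp k x * (Real.exp (tf k x) * Real.log (Real.exp (tf k x))) =
        c0 * (k * (1 / 4 : ℝ) ^ (x : ℕ) - ((x : ℕ) : ℝ) * (1 / 4 : ℝ) ^ (x : ℕ)) *
          Real.log 64 := by
      intro x
      rw [← mul_assoc, pp_exp_tf, Real.log_exp]
      unfold tf
      ring
    simp only [e]
    rw [← Finset.sum_mul, ← Finset.mul_sum, Finset.sum_sub_distrib, ← Finset.mul_sum]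
  have hlogc0 : Real.log c0 ≤ 2 * k * Real.log 2 := by
    rw [hc0, Real.log_div (by positivity) hZ.ne', Real.log_pow, log64]
    have h2 : Real.log (16 ^ k) ≤ Real.log (ZZ k) :=
      Real.log_le_log (by positivity) (ZZ_ge k)
    rw [Real.log_pow, log16] at h2
    linarith
  have hlogS : Real.log S ≤ 1 / 3 := by
    have := Real.log_le_sub_one_of_pos (by linarith : 0 < S)
    linarith
  unfold ent
  rw [h1, hm, Real.log_mul hc0p.ne' (by linarith : S ≠ 0), log64]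
  have hl2 := Real.log_two_gt_d9
  have e3 : c0 * (k * S - W) * (6 * Real.log 2) - c0 * S * (Real.log c0 + Real.log S) =
      c0 * ((k * S - W) * (6 * Real.log 2) - S * (Real.log c0 + Real.log S)) := by ring
  rw [e3]
  refine mul_le_mul_of_nonneg_left ?_ hc0p.le
  have hk0 : (0 : ℝ) ≤ k := Nat.cast_nonneg k
  have h4 : S * (Real.log c0 + Real.log S) ≤ S * (2 * k * Real.log 2 + 1 / 3) :=
    mul_le_mul_of_nonneg_left (by linarith) (by linarith)
  have h5 : (k : ℝ) * Real.log 2 * 1 ≤ k * Real.log 2 * S :=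
    mul_le_mul_of_nonneg_left hS1 (by positivity)
  have h6 : W * Real.log 2 ≤ 4 / 9 * Real.log 2 := mul_le_mul_of_nonneg_right hW2 hl.le
  nlinarith

theorem cMLS_pos (k : ℕ) (hk : 1 ≤ k) : 0 < cMLS (PP k) (pp k) := by
  have hk0 : (0 : ℝ) < k := by exact_mod_cast hk
  have hZ := ZZ_pos k
  refine lt_of_lt_of_le (by positivity : 0 < 1 / (4 * (k : ℝ) ^ 2 * 2 ^ k * ZZ k ^ 2)) ?_
  unfold cMLS
  refine le_csInf ⟨_, tf k, tf_nonconst k hk, rfl⟩ ?_
  rintro r ⟨f, hf, rfl⟩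
  exact ratio_ge k hk f hf

theorem cMLS_le (k : ℕ) (hk : 2 ≤ k) : cMLS (PP k) (pp k) ≤ 3 / (2 ^ k * (k - 1)) := by
  have hk0 : (2 : ℝ) ≤ k := by exact_mod_cast hk
  have hZ := ZZ_pos k
  have hl := Real.log_pos (by norm_num : (1 : ℝ) < 2)
  have h1 : cMLS (PP k) (pp k) ≤ dir (PP k) (pp k) (fun x => Real.exp (tf k x)) (tf k) /
      ent (pp k) (fun x => Real.exp (tf k x)) := by
    unfold cMLS
    refine csInf_le ⟨0, ?_⟩ ⟨tf k, tf_nonconst k (by omega), rfl⟩
    rintro r ⟨f, hf, rfl⟩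
    refine le_trans ?_ (ratio_ge k (by omega) f hf)
    positivity
  refine le_trans h1 ?_
  have hpos : 0 < 64 ^ k / ZZ k * (Real.log 2 * (4 * k - 4)) := by
    have : (0 : ℝ) < 4 * k - 4 := by linarith
    positivity
  have hent : 0 < ent (pp k) (fun x => Real.exp (tf k x)) := lt_of_lt_of_le hpos (ent_tf_ge k)
  have hk1 : (0 : ℝ) < k - 1 := by linarith
  calc dir (PP k) (pp k) (fun x => Real.exp (tf k x)) (tf k) /
      ent (pp k) (fun x => Real.exp (tf k x))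
      ≤ (64 ^ k / ZZ k * (12 * Real.log 2 / 2 ^ k)) / ent (pp k) (fun x => Real.exp (tf k x)) :=
        div_le_div_of_nonneg_right (dir_tf_le k) hent.le
    _ ≤ (64 ^ k / ZZ k * (12 * Real.log 2 / 2 ^ k)) / (64 ^ k / ZZ k * (Real.log 2 * (4 * k - 4))) :=
        div_le_div_of_nonneg_left (by positivity) hpos (ent_tf_ge k)
    _ = 3 / (2 ^ k * (k - 1)) := by
        have : (4 * (k : ℝ) - 4) = 4 * (k - 1) := by ring
        rw [this]
        field_simp
        ring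

end Q296.MLS
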